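import Pool.Agent.Lib_helper51.OK5.Base

/-!
# (c1) from an emerald in the clone set and at most three boundary colours
-/

set_option autoImplicit false
set_option linter.unusedSectionVars false
set_option linter.unusedVariables false

open scoped Classical
open Finset
open Pool.Agent.O2 (PC Cb CrOn pr ms dg nd addE)
open Pool.Agent.O3 (con hit Clq)
open Pool.Agent.OW28 (NoCE Add1)
open Pool.Agent.OW

namespace Pool.Agent.OK5

variable {V : Type} {G : SimpleGraph V} {S : Finset V}

theorem pick_two (X : Finset (Fin 5)) (hX : 3 ≤ X.card) (f g : Fin 5) :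
    ∃ d ∈ X, ∃ e ∈ X, d ≠ f ∧ e ≠ g ∧ d ≠ e := by
  have h1 : 2 ≤ (X.erase f).card := by
    have := pred_card_le_card_erase (s := X) (a := f)
    omega
  have h2 : 2 ≤ (X.erase g).card := by
    have := pred_card_le_card_erase (s := X) (a := g)
    omega
  obtain ⟨d, hd⟩ := card_pos.1 (show 0 < (X.erase f).card by omega)
  have h3 : 0 < ((X.erase g).erase d).card := by
    have := pred_card_le_card_erase (s := X.erase g) (a := d)
    omega
  obtain ⟨e, he⟩ := card_pos.1 h3
  obtain ⟨he1, he2⟩ := mem_erase.1 he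
  obtain ⟨he3, he4⟩ := mem_erase.1 he2
  obtain ⟨hd1, hd2⟩ := mem_erase.1 hd
  exact ⟨d, hd2, e, he4, hd1, he3, he1.symm⟩

theorem pick5 (b c f g : Fin 5) (hbc : b ≠ c) : ∃ d e k : Fin 5, d ≠ f ∧ e ≠ g ∧
    d ≠ b ∧ d ≠ c ∧ e ≠ b ∧ e ≠ c ∧ d ≠ e ∧ k ≠ b ∧ k ≠ c ∧ k ≠ d ∧ k ≠ e := by
  have h1 : 3 ≤ ((univ.erase b).erase c : Finset (Fin 5)).card := by
    rw [card_erase_of_mem (mem_erase.2 ⟨hbc.symm, mem_univ c⟩), card_erase_of_mem (mem_univ b)]
    simp
  obtain ⟨d, hd, e, he, hdf, heg, hde⟩ := pick_two _ h1 f g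
  have h2 : 0 < ((((univ.erase b).erase c).erase d).erase e : Finset (Fin 5)).card := by
    rw [card_erase_of_mem (mem_erase.2 ⟨hde.symm, he⟩), card_erase_of_mem hd]
    omega
  obtain ⟨k, hk⟩ := card_pos.1 h2
  simp only [mem_erase, mem_univ, and_true, ne_eq] at hd he hk
  exact ⟨d, e, k, hdf, heg, hd.2, hd.1, he.2, he.1, hde, hk.2.2.2, hk.2.2.1, hk.2.1, hk.1⟩

/-- degrees in the clone graph -/
theorem clo_dg_mem {K : ℕ} {v x t : V} {R : Finset V} (hvR : v ∉ R) (ht : t ∈ R)
    (hd : dg (clo G S v x) (insert v R) t = K) :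
    (t ∈ cn G S v x → dg G R t + 1 = K) ∧ (t ∉ cn G S v x → dg G R t = K) := by
  have htv : t ≠ v := fun e => hvR (e ▸ ht)
  have h1 : ∀ y ∈ R, ((clo G S v x).Adj t y ↔ G.Adj t y) := fun y hy =>
    clo_adj htv (fun e => hvR (e ▸ hy))
  have h2 : R.filter (fun y => (clo G S v x).Adj t y) = R.filter fun y => G.Adj t y :=
    filter_congr h1
  have h3 : (clo G S v x).Adj t v ↔ t ∈ cn G S v x := by
    rw [SimpleGraph.adj_comm]
    exact clo_adj_v' htv
  have h4 : dg (clo G S v x) (insert v R) t =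
      ((insert v R).filter fun y => (clo G S v x).Adj t y).card := rfl
  rw [h4, filter_insert] at hd
  constructor
  · intro hc
    rw [if_pos (h3.2 hc), card_insert_of_notMem (fun h => hvR (mem_filter.1 h).1), h2] at hd
    exact hd
  · intro hc
    rw [if_neg (fun h => hc (h3.1 h)), h2] at hd
    exact hd

theorem core {v x : V} {R T : Finset V} (h : Cex G S 5 b5) (hr : (S.card - 1) % 5 ≠ 4)
    (hx : x ∈ S) (hxd : dg G S x = 5) (hv : v ∈ S) (hxv : G.Adj x v)
    (hR : R ⊆ S.erase v) (hcn : cn G S v x ⊆ R) (hT : T ⊆ R) (hTc : T.card = 5)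
    (hq : Clq G T) (hTd : ∀ t ∈ T, dg (clo G S v x) (insert v R) t = 5)
    (hcol : ∀ ψ : V → Fin 5, PC G R ψ → ((bd G S R).image ψ).card ≤ 3) :
    Clq G (cn G S v x) := by
  by_contra hno
  have hRS : R ⊆ S := hR.trans (erase_subset _ _)
  have hvR : v ∉ R := fun h' => (mem_erase.1 (hR h')).1 rfl
  have hRne : R ≠ S := by rintro rfl; exact hvR hv
  have hTS : T ⊆ S := hT.trans hRS
  have hxc : x ∈ cn G S v x := Pool.Agent.OW.mem_cn.2 (Or.inl rfl)
  have hxR : x ∈ R := hcn hxc
  -- no vertex of `T` is adjacent to the clone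
  have key1 : ∀ t ∈ T, t ∈ cn G S v x → ∀ y ∈ R, G.Adj t y → y ∈ T := by
    intro t ht htc y hy hty
    have h1 := (clo_dg_mem hvR (hT ht) (hTd t ht)).1 htc
    have h2 : T.erase t = R.filter fun y => G.Adj t y := by
      apply eq_of_subset_of_card_le
      · intro a ha
        obtain ⟨ha1, ha2⟩ := mem_erase.1 ha
        exact mem_filter.2 ⟨hT ha2, hq t ht a ha2 ha1.symm⟩
      · rw [card_erase_of_mem ht, hTc]
        have h3 : dg G R t = (R.filter fun y => G.Adj t y).card := rfl
        omega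
    have h3 : y ∈ R.filter fun y => G.Adj t y := mem_filter.2 ⟨hy, hty⟩
    rw [← h2] at h3
    exact mem_of_mem_erase h3
  have hTcn : ∀ t ∈ T, t ∉ cn G S v x := by
    intro t ht htc
    have hxT : x ∈ T := by
      rcases Pool.Agent.OW.mem_cn.1 htc with h1 | h1
      · rw [← h1]; exact ht
      · exact key1 t ht htc x hxR h1.2.2.symm
    apply hno
    intro a ha b hb hab
    have hsub : ∀ c ∈ cn G S v x, c ∈ T := by
      intro c hc
      rcases Pool.Agent.OW.mem_cn.1 hc with h1 | h1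
      · rw [h1]; exact hxT
      · exact key1 x hxT hxc c (hcn hc) h1.2.2
    exact hq a (hsub a ha) b (hsub b hb) hab
  have hTdR : ∀ t ∈ T, dg G R t = 5 := fun t ht =>
    (clo_dg_mem hvR (hT ht) (hTd t ht)).2 (hTcn t ht)
  -- vertices off the boundary are low
  have hoff : ∀ t ∈ R, t ∉ bd G S R → ∀ y ∈ S, G.Adj t y → y ∈ R := by
    intro t ht htb y hy hty
    by_contra hyR
    exact htb (mem_filter.2 ⟨ht, y, mem_sdiff.2 ⟨hy, hyR⟩, hty⟩)
  have hlow : ∀ t ∈ T, t ∉ bd G S R → dg G S t = 5 := by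
    intro t ht htb
    rw [← hTdR t ht]
    unfold dg
    congr 1
    ext y
    rw [mem_filter, mem_filter]
    exact ⟨fun h1 => ⟨hoff t (hT ht) htb y h1.1 h1.2, h1.2⟩, fun h1 => ⟨hRS h1.1, h1.2⟩⟩
  -- the sizes
  obtain ⟨ψ0, hψ0⟩ := (Pool.Agent.O2.cb_fin (by omega : 0 < 5)).1 (h.cr.sub hRS hRne)
  have hP3 : (T.filter fun t => t ∈ bd G S R).card ≤ 3 := by
    have h1 : ((T.filter fun t => t ∈ bd G S R).image ψ0).card =
        (T.filter fun t => t ∈ bd G S R).card := by
      apply card_image_of_injOn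
      intro a ha b hb hab
      have ha' := (mem_filter.1 (mem_coe.1 ha)).1
      have hb' := (mem_filter.1 (mem_coe.1 hb)).1
      by_contra hne
      exact hψ0 a (hT ha') b (hT hb') (hq a ha' b hb' hne) hab
    rw [← h1]
    refine (card_le_card (image_subset_image ?_)).trans (hcol ψ0 hψ0)
    intro a ha
    exact (mem_filter.1 ha).2
  have hL2 : (T.filter fun t => t ∉ bd G S R).card ≤ 2 := by
    refine (card_le_card ?_).trans (low_two h hr hTS hq hTc)
    intro a ha
    obtain ⟨h1, h2⟩ := mem_filter.1 ha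
    exact mem_filter.2 ⟨h1, hlow a h1 h2⟩
  have hsum : (T.filter fun t => t ∈ bd G S R).card + (T.filter fun t => t ∉ bd G S R).card
      = 5 := by
    rw [card_filter_add_card_filter_not, hTc]
  obtain ⟨u, u', huu, hLe⟩ := card_eq_two.1 (show (T.filter fun t => t ∉ bd G S R).card = 2 by
    omega)
  have hPc : (T.filter fun t => t ∈ bd G S R).card = 3 := by omega
  have huL : u ∈ T.filter fun t => t ∉ bd G S R := by rw [hLe]; exact mem_insert_self _ _
  have huL' : u' ∈ T.filter fun t => t ∉ bd G S R := by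
    rw [hLe]; exact mem_insert_of_mem (mem_singleton_self _)
  obtain ⟨huT, hub⟩ := mem_filter.1 huL
  obtain ⟨huT', hub'⟩ := mem_filter.1 huL'
  -- the common outer neighbour
  obtain ⟨w, hw, hwT, huw, hcnw, huniq⟩ := out_nbr hTS hq hTc huT (hlow u huT hub)
  have huu' : G.Adj u u' := hq u huT u' huT' huu
  have htw : Tw G S u u' := c2 h u (hTS huT) (hlow u huT hub) w hw huw (by rw [hcnw]; exact hq)
    u' (hTS huT') huu' (fun e => hwT (e ▸ huT')) (hlow u' huT' hub')
  have huw' : G.Adj u' w := (htw.2 w hw (fun e => hwT (e ▸ huT)) (fun e => hwT (e ▸ huT'))).1 huw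
  have hwR : w ∈ R := hoff u (hT huT) hub w hw huw
  have huniq' : ∀ y ∈ S, G.Adj u' y → y ∉ T → y = w := by
    intro y hy huy hyT
    exact huniq y hy ((htw.2 y hy (fun e => hyT (e ▸ huT)) (fun e => hyT (e ▸ huT'))).2 huy) hyT
  -- the boundary off `T` has the colour of `w`
  have key2 : ∀ ψ : V → Fin 5, PC G R ψ → ∀ z ∈ bd G S R, z ∉ T → ψ z = ψ w := by
    intro ψ hψ z hz hzT
    by_contra hbc
    have hzR : z ∈ R := (mem_filter.1 hz).1
    have hinj : Set.InjOn ψ (T : Set V) := by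
      intro a ha b hb hab
      by_contra hne
      exact hψ a (hT (mem_coe.1 ha)) b (hT (mem_coe.1 hb))
        (hq a (mem_coe.1 ha) b (mem_coe.1 hb) hne) hab
    have hsurj : T.image ψ = univ := by
      apply eq_univ_of_card
      rw [card_image_of_injOn hinj, hTc]
      simp
    obtain ⟨p1, hp1, hp1c⟩ := mem_image.1 (show ψ w ∈ T.image ψ by rw [hsurj]; exact mem_univ _)
    have hp1u : p1 ≠ u := by
      rintro rfl
      exact hψ p1 (hT hp1) w hwR huw hp1c
    have hp1u' : p1 ≠ u' := by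
      rintro rfl
      exact hψ p1 (hT hp1) w hwR huw' hp1c
    have hp1b : p1 ∈ T.filter fun t => t ∈ bd G S R := by
      refine mem_filter.2 ⟨hp1, ?_⟩
      by_contra hcon
      have h1 : p1 ∈ T.filter fun t => t ∉ bd G S R := mem_filter.2 ⟨hp1, hcon⟩
      rw [hLe, mem_insert, mem_singleton] at h1
      rcases h1 with h1 | h1
      · exact hp1u h1
      · exact hp1u' h1
    obtain ⟨p2, p3, hp23, hPe⟩ := card_eq_two.1
      (show ((T.filter fun t => t ∈ bd G S R).erase p1).card = 2 by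
        rw [card_erase_of_mem hp1b, hPc])
    have hp2 : p2 ∈ (T.filter fun t => t ∈ bd G S R).erase p1 := by
      rw [hPe]; exact mem_insert_self _ _
    have hp3 : p3 ∈ (T.filter fun t => t ∈ bd G S R).erase p1 := by
      rw [hPe]; exact mem_insert_of_mem (mem_singleton_self _)
    obtain ⟨hp21, hp2'⟩ := mem_erase.1 hp2
    obtain ⟨hp31, hp3'⟩ := mem_erase.1 hp3
    obtain ⟨hp2T, hp2b⟩ := mem_filter.1 hp2'
    obtain ⟨hp3T, hp3b⟩ := mem_filter.1 hp3'
    obtain ⟨-, hp1bd⟩ := mem_filter.1 hp1b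
    have hp2u : p2 ≠ u := fun e => hub (e ▸ hp2b)
    have hp2u' : p2 ≠ u' := fun e => hub' (e ▸ hp2b)
    have hp3u : p3 ≠ u := fun e => hub (e ▸ hp3b)
    have hp3u' : p3 ≠ u' := fun e => hub' (e ▸ hp3b)
    have hTall : ∀ a ∈ T, a = p1 ∨ a = p2 ∨ a = p3 ∨ a = u ∨ a = u' := by
      intro a ha
      by_cases hab : a ∈ bd G S R
      · by_cases ha1 : a = p1
        · exact Or.inl ha1
        · have h1 : a ∈ (T.filter fun t => t ∈ bd G S R).erase p1 :=
            mem_erase.2 ⟨ha1, mem_filter.2 ⟨ha, hab⟩⟩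
          rw [hPe, mem_insert, mem_singleton] at h1
          rcases h1 with h1 | h1
          · exact Or.inr (Or.inl h1)
          · exact Or.inr (Or.inr (Or.inl h1))
      · have h1 : a ∈ T.filter fun t => t ∉ bd G S R := mem_filter.2 ⟨ha, hab⟩
        rw [hLe, mem_insert, mem_singleton] at h1
        rcases h1 with h1 | h1
        · exact Or.inr (Or.inr (Or.inr (Or.inl h1)))
        · exact Or.inr (Or.inr (Or.inr (Or.inr h1)))
    obtain ⟨τ2, -, -, -, -, hτ2⟩ := out_nbr hT hq hTc hp2T (hTdR p2 hp2T)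
    obtain ⟨τ3, -, -, -, -, hτ3⟩ := out_nbr hT hq hTc hp3T (hTdR p3 hp3T)
    obtain ⟨d, e, k, hdf, heg, hdb, hdc, heb, hec, hde, hkb, hkc, hkd, hke⟩ :=
      pick5 (ψ z) (ψ w) (ψ τ2) (ψ τ3) hbc
    let π : V → Fin 5 := fun a => if a = p1 then ψ w else if a = p2 then d else
      if a = p3 then e else if a = u then ψ z else k
    have hπ1 : π p1 = ψ w := by simp [π]
    have hπ2 : π p2 = d := by simp [π, hp21]
    have hπ3 : π p3 = e := by simp [π, hp31, hp23.symm]
    have hπu : π u = ψ z := by simp [π, hp1u.symm, hp2u.symm, hp3u.symm]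
    have hπu' : π u' = k := by simp [π, hp1u'.symm, hp2u'.symm, hp3u'.symm, huu.symm]
    have hψ' := recolor (π := π) hψ hT (by
      intro a ha b hb hab
      rcases hTall a ha with rfl | rfl | rfl | rfl | rfl <;>
        rcases hTall b hb with rfl | rfl | rfl | rfl | rfl <;>
        first
        | exact absurd rfl hab
        | (simp only [hπ1, hπ2, hπ3, hπu, hπu']
           first | assumption | (apply Ne.symm; assumption))) (by
      intro a ha b hb hbT hab
      rcases hTall a ha with ha' | ha' | ha' | ha' | ha'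
      · rw [ha', hπ1]
        rw [ha'] at hab
        intro he
        exact hψ p1 (hT hp1) b hb hab (by rw [hp1c, he])
      · rw [ha', hπ2]
        rw [ha'] at hab
        rw [hτ2 b hb hab hbT]
        exact hdf
      · rw [ha', hπ3]
        rw [ha'] at hab
        rw [hτ3 b hb hab hbT]
        exact heg
      · rw [ha', hπu]
        rw [ha'] at hab
        rw [huniq b (hRS hb) hab hbT]
        exact hbc
      · rw [ha', hπu']
        rw [ha'] at hab
        rw [huniq' b (hRS hb) hab hbT]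
        exact hkc)
    have h4 := hcol _ hψ'
    have h5 : ({ψ w, d, e, ψ z} : Finset (Fin 5)) ⊆
        (bd G S R).image (fun a => if a ∈ T then π a else ψ a) := by
      intro i hi
      simp only [mem_insert, mem_singleton] at hi
      rcases hi with rfl | rfl | rfl | rfl
      · exact mem_image.2 ⟨p1, hp1bd, by simp only [if_pos hp1]; exact hπ1⟩
      · exact mem_image.2 ⟨p2, hp2b, by simp only [if_pos hp2T]; exact hπ2⟩
      · exact mem_image.2 ⟨p3, hp3b, by simp only [if_pos hp3T]; exact hπ3⟩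
      · exact mem_image.2 ⟨z, hz, by simp only [if_neg hzT]⟩
    have h6 : ({ψ w, d, e, ψ z} : Finset (Fin 5)).card = 4 := by
      rw [card_insert_of_notMem, card_insert_of_notMem, card_insert_of_notMem, card_singleton]
      · rw [mem_singleton]; exact heb
      · simp only [mem_insert, mem_singleton, not_or]
        exact ⟨hde, hdb⟩
      · simp only [mem_insert, mem_singleton, not_or]
        exact ⟨hdc.symm, hec.symm, Ne.symm hbc⟩
    have h7 := card_le_card h5
    omega
  -- `x` is `w`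
  have hxT : x ∉ T := fun h1 => hTcn x h1 hxc
  have hxb : x ∈ bd G S R := mem_filter.2 ⟨hxR, v, mem_sdiff.2 ⟨hv, hvR⟩, hxv⟩
  have hxw : x = w := by
    by_contra hne
    obtain ⟨ψ, h1, h2⟩ := (ae_one h).pc (by omega) hRS hRne (F := {(x, w)})
      (by rw [card_singleton])
    exact h2 x hxR w hwR hne (mem_singleton_self _) (key2 ψ h1 x hxb hxT)
  have huc : u ∈ cn G S v x := by
    refine Pool.Agent.OW.mem_cn.2 (Or.inr ⟨fun e => hvR (e ▸ hT huT), hTS huT, ?_⟩)
    rw [hxw]
    exact huw.symm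
  exact hTcn u huT huc

end Pool.Agent.OK5
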