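import Pool.Agent.Lib_helper92.OW.Lp
import Pool.Agent.Lib_helper53.OW.C4n
import Pool.Agent.Lib_helper51.OW.C2

/-!
# Boundary colours, recolouring a clique, the low vertices of a clique
-/

set_option autoImplicit false
set_option linter.unusedSectionVars false
set_option linter.unusedVariables false

open scoped Classical
open Finset
open Pool.Agent.O2 (PC Cb CrOn pr ms dg nd addE)
open Pool.Agent.O3 (con hit Clq)
open Pool.Agent.OW28 (NoCE Add1)
open Pool.Agent.OW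

namespace Pool.Agent.OK5

variable {V : Type} {K : ℕ} {G : SimpleGraph V} {S R A : Finset V} {ψ : V → Fin K}
  {Z : Finset (Fin K)}

/-- the boundary colours of the last step -/
theorem bd_gain (h : Step G S R ψ A Z) (hU : R ∪ A = S) :
    (((bd G S R).image ψ).card : ℤ) ≤ Z.card + gain G R ψ A Z := by
  have h1 : (bd G S R).image ψ ⊆ Z ∪ A.biUnion fun v => hit G R ψ v \ Z := by
    intro i hi
    obtain ⟨y, hy, rfl⟩ := mem_image.1 hi
    obtain ⟨hyR, v, hv, hyv⟩ := mem_filter.1 hy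
    rw [mem_union]
    by_cases hz : ψ y ∈ Z
    · exact Or.inl hz
    · right
      have hvA : v ∈ A := by
        obtain ⟨h1, h2⟩ := mem_sdiff.1 hv
        rw [← hU] at h1
        exact (mem_union.1 h1).resolve_left h2
      refine mem_biUnion.2 ⟨v, hvA, mem_sdiff.2 ⟨?_, hz⟩⟩
      rw [hit, mem_filter]
      exact ⟨mem_univ _, y, hyR, rfl, hyv.symm⟩
  have h2 := (card_le_card h1).trans (card_union_le _ _)
  have h3 : (A.biUnion fun v => hit G R ψ v \ Z).card ≤ ∑ v ∈ A, (hit G R ψ v \ Z).card :=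
    card_biUnion_le
  have h4 : ((∑ v ∈ A, (hit G R ψ v \ Z).card : ℕ) : ℤ) ≤ gain G R ψ A Z := by
    unfold gain
    push_cast
    apply sum_le_sum
    intro v _
    have h5 := Pool.Agent.O3.hit_card_le G R ψ v
    have h6 : (hit G R ψ v \ Z).card + (hit G R ψ v ∩ Z).card = (hit G R ψ v).card :=
      card_sdiff_add_card_inter _ _
    omega
  have h5 : (((bd G S R).image ψ).card : ℤ) ≤ Z.card + (A.biUnion fun v => hit G R ψ v \ Z).card := by
    exact_mod_cast h2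
  have h6 : ((A.biUnion fun v => hit G R ψ v \ Z).card : ℤ) ≤
      ((∑ v ∈ A, (hit G R ψ v \ Z).card : ℕ) : ℤ) := by exact_mod_cast h3
  linarith

/-- a colouring with two boundary colours -/
theorem two_col (hS : CrOn G S K) (hA : AE G S K 1) (hK : 2 ≤ K) (hR : R ⊆ S) (hne : R ≠ S)
    (hc : 2 ≤ R.card) : ∃ ψ : V → Fin K, PC G R ψ ∧ 2 ≤ ((bd G S R).image ψ).card := by
  obtain ⟨ψ, h1, h2⟩ := gd_exists (i := 1) hS hA (by omega) hR hne hc
  refine ⟨ψ, h1, ?_⟩
  have key : ∀ c : Fin K, ∃ y ∈ bd G S R, ψ y ≠ c := by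
    intro c
    have h3 := h2 c
    unfold pr at h3
    obtain ⟨p, hp⟩ := card_pos.1 (show 0 < _ from h3)
    obtain ⟨hp1, hp2⟩ := mem_filter.1 hp
    obtain ⟨h4, h5⟩ := mem_product.1 hp1
    obtain ⟨h6, h7⟩ := mem_filter.1 h4
    exact ⟨p.1, mem_filter.2 ⟨h6, p.2, h5, hp2⟩, h7⟩
  obtain ⟨y, hy, -⟩ := key ⟨0, by omega⟩
  obtain ⟨y', hy', hne'⟩ := key (ψ y)
  have h3 : ({ψ y, ψ y'} : Finset (Fin K)) ⊆ (bd G S R).image ψ := by
    intro i hi
    rcases mem_insert.1 hi with rfl | hi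
    · exact mem_image_of_mem ψ hy
    · rw [mem_singleton.1 hi]; exact mem_image_of_mem ψ hy'
  have h4 := card_le_card h3
  rwa [card_pair (Ne.symm hne')] at h4

/-- recolouring a subset -/
theorem recolor {Q : Finset V} {π : V → Fin K} (hψ : PC G R ψ) (hQ : Q ⊆ R)
    (h1 : ∀ a ∈ Q, ∀ b ∈ Q, a ≠ b → π a ≠ π b)
    (h2 : ∀ a ∈ Q, ∀ b ∈ R, b ∉ Q → G.Adj a b → π a ≠ ψ b) :
    PC G R (fun a => if a ∈ Q then π a else ψ a) := by
  intro a ha b hb hab
  simp only
  by_cases haQ : a ∈ Q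
  · by_cases hbQ : b ∈ Q
    · rw [if_pos haQ, if_pos hbQ]
      exact h1 a haQ b hbQ hab.ne
    · rw [if_pos haQ, if_neg hbQ]
      exact h2 a haQ b hb hbQ hab
  · by_cases hbQ : b ∈ Q
    · rw [if_neg haQ, if_pos hbQ]
      exact (h2 b hbQ a ha haQ hab.symm).symm
    · rw [if_neg haQ, if_neg hbQ]
      exact hψ a ha b hb hab

/-- the outer neighbour of a low vertex of a `K`-clique -/
theorem out_nbr {T : Finset V} (hT : T ⊆ S) (hq : Clq G T) (hk : T.card = K) {u : V}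
    (hu : u ∈ T) (hud : dg G S u = K) :
    ∃ w ∈ S, w ∉ T ∧ G.Adj u w ∧ cn G S w u = T ∧ ∀ y ∈ S, G.Adj u y → y ∉ T → y = w := by
  have h1 : T.erase u ⊆ S.filter fun y => G.Adj u y := by
    intro y hy
    obtain ⟨h2, h3⟩ := mem_erase.1 hy
    exact mem_filter.2 ⟨hT h3, hq u hu y h3 h2.symm⟩
  have hc1 : (T.erase u).card + 1 = K := by
    rw [card_erase_of_mem hu, hk]
    have := card_pos.2 ⟨u, hu⟩
    omega
  have h2 : ((S.filter fun y => G.Adj u y) \ T.erase u).card = 1 := by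
    rw [card_sdiff_of_subset h1]
    have : (S.filter fun y => G.Adj u y).card = K := hud
    omega
  obtain ⟨w, hw⟩ := card_eq_one.1 h2
  have hw1 : w ∈ (S.filter fun y => G.Adj u y) \ T.erase u := by rw [hw]; exact mem_singleton_self w
  obtain ⟨h3, h4⟩ := mem_sdiff.1 hw1
  obtain ⟨h5, h6⟩ := mem_filter.1 h3
  have hwT : w ∉ T := fun h => h4 (mem_erase.2 ⟨h6.ne', h⟩)
  have huniq : ∀ y ∈ S, G.Adj u y → y ∉ T → y = w := by
    intro y hy huy hyT
    have : y ∈ (S.filter fun y => G.Adj u y) \ T.erase u :=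
      mem_sdiff.2 ⟨mem_filter.2 ⟨hy, huy⟩, fun h => hyT (mem_of_mem_erase h)⟩
    rw [hw] at this
    exact mem_singleton.1 this
  refine ⟨w, h5, hwT, h6, ?_, huniq⟩
  ext a
  rw [Pool.Agent.OW.mem_cn]
  constructor
  · rintro (rfl | ⟨h7, h8, h9⟩)
    · exact hu
    · by_contra h10
      exact h7 (huniq a h8 h9 h10)
  · intro ha
    by_cases hau : a = u
    · exact Or.inl hau
    · exact Or.inr ⟨fun e => hwT (e ▸ ha), hT ha, hq u hu a ha (Ne.symm hau)⟩

/-- the low vertices of a `K`-clique are twins -/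
theorem low_clq (hK : 1 ≤ K) (hS : CrOn G S K) (hadd : Add1 G S K) {n : ℕ}
    (c4 : ∀ x ∈ S, dg G S x = K → ∀ v ∈ S, G.Adj x v → Clq G (cn G S v x) →
      (tws G S x).card + n ≤ K)
    {T : Finset V} (hT : T ⊆ S) (hq : Clq G T) (hk : T.card = K) (hnK : n ≤ K) :
    (T.filter fun t => dg G S t = K).card + n ≤ K + 1 := by
  by_cases h0 : (T.filter fun t => dg G S t = K).card = 0
  · omega
  obtain ⟨u, hu⟩ := card_pos.1 (Nat.pos_of_ne_zero h0)
  obtain ⟨huT, hud⟩ := mem_filter.1 hu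
  obtain ⟨w, hw, hwT, huw, hcn, huniq⟩ := out_nbr hT hq hk huT hud
  have h1 := c4 u (hT huT) hud w hw huw (by rw [hcn]; exact hq)
  have h2 : (T.filter fun t => dg G S t = K).erase u ⊆ tws G S u := by
    intro y hy
    obtain ⟨h3, h4⟩ := mem_erase.1 hy
    obtain ⟨h5, h6⟩ := mem_filter.1 h4
    have huy : G.Adj u y := hq u huT y h5 h3.symm
    refine c4_mem_tws.2 ⟨hT h5, h3, ?_⟩
    exact twin_of_low hK hS hadd (hT huT) hud hw huw (by rw [hcn]; exact hq) (hT h5) huy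
      (fun e => hwT (e ▸ h5)) h6
  have h3 := card_le_card h2
  rw [card_erase_of_mem hu] at h3
  omega

end Pool.Agent.OK5
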