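import Pool.Agent.Lib_helper51.OK5.Tab
import Pool.Agent.Lib_helper51.OK5.Low

/-!
# A minimal counterexample for `K = 5`: the facts that hold for all residues
-/

set_option autoImplicit false
set_option linter.unusedSectionVars false
set_option linter.unusedVariables false

open scoped Classical
open Finset
open Pool.Agent.O2 (PC Cb CrOn pr ms dg nd addE)
open Pool.Agent.O3 (con hit Clq)
open Pool.Agent.OW28 (NoCE Add1)
open Pool.Agent.OW

namespace Pool.Agent.OK5

variable {V : Type} {G : SimpleGraph V} {S : Finset V}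

theorem df_le_card {K : ℕ} (h : CrOn G S K) : df G K S ≤ S.card := by
  rw [df_sum]
  have h1 : ∑ v ∈ S, (((K : ℤ) + 1) - dg G S v) ≤ ∑ v ∈ S, (1 : ℤ) := by
    apply sum_le_sum
    intro v hv
    have h2 : (K : ℤ) ≤ dg G S v := by exact_mod_cast h.dg_ge hv
    linarith
  rw [sum_const, nsmul_eq_mul, mul_one] at h1
  exact h1

theorem card_gt (h : Cex G S 5 b5) : 6 < S.card := by
  have h1 := h.cr.card_ge
  rcases Nat.eq_or_lt_of_le h1 with h2 | h2
  · exfalso
    have h3 := h.big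
    have h4 := df_le_card h.cr
    rw [← h2] at h4
    have h5 : b5 (S.card - 1) = 6 := by
      rw [← h2]; exact b5_five
    rw [h5] at h3
    push_cast at h4
    linarith
  · exact h2

theorem df_pos (h : Cex G S 5 b5) : 0 < df G 5 S := by
  have h1 := card_gt h
  have h2 := b5_pos (S.card - 1) (by omega)
  have h3 := h.big
  linarith

theorem Y_two (h : Cex G S 5 b5) : 2 ≤ Yy G 5 b5 S := by
  have := h.big
  unfold Yy
  linarith

theorem Y_four (h : Cex G S 5 b5) : ∀ R ⊆ S, R ≠ S → 6 ≤ R.card → 4 ≤ Yy G 5 b5 R :=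
  Y_ge_four (by omega) h.cr h.ih b5_F1 (Y_two h)

theorem ae_one (h : Cex G S 5 b5) : AE G S 5 1 := by
  apply ae_of_Y h.cr h.ih
  intro X hX hne hc
  have := Y_four h X hX hne hc
  push_cast
  linarith

theorem no_ce (h : Cex G S 5 b5) : NoCE G S 5 :=
  noCE_of_Y h.cr (by omega) (card_gt h) (by rw [b5_five]; norm_num) (Y_four h)

theorem add_one (h : Cex G S 5 b5) : Add1 G S 5 := add1_of_ae (by omega) (ae_one h)

/-- c2 -/
theorem c2 (h : Cex G S 5 b5) : ∀ x ∈ S, dg G S x = 5 → ∀ v ∈ S, G.Adj x v →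
    Clq G (cn G S v x) → ∀ y ∈ S, G.Adj x y → y ≠ v → dg G S y = 5 → Tw G S x y :=
  fun x hx hd v hv hxv hq y hy hxy hyv hyd =>
    twin_of_low (by omega) h.cr (add_one h) hx hd hv hxv hq hy hxy hyv hyd

/-- c3 -/
theorem c3 (h : Cex G S 5 b5) : ∀ x ∈ S, dg G S x = 5 → ∀ v ∈ S, G.Adj x v → ∀ v' ∈ S,
    G.Adj x v' → v ≠ v' → Clq G (cn G S v x) → Clq G (cn G S v' x) → False :=
  fun x hx hd v hv hxv v' hv' hxv' hne hq hq' =>
    not_two_clq h.cr (no_ce h) hx hd hv hv' hne hxv hxv' hq hq'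

theorem no_al (h : Cex G S 5 b5) : NoAl G S 5 :=
  fun x hx hl p hp q hq hxp hxq hpq h1 h2 => c3 h x hx hl p hp hxp q hq hxq hpq h1 h2

/-- c4: at most one twin if there is a clique -/
theorem c4 (h : Cex G S 5 b5) (hr : (S.card - 1) % 5 ≠ 4) : ∀ x ∈ S, dg G S x = 5 →
    ∀ v ∈ S, G.Adj x v → Clq G (cn G S v x) → (tws G S x).card ≤ 1 := by
  intro x hx hl v hv hxv hc
  have hcard := card_gt h
  have h1 := Pool.Agent.OW.c4 (β := b5) h.cr h.ih hcard (no_al h) (by omega)
    (fun R h1 h2 h3 => by linarith [Y_four h R h1 h2 h3]) (Y_two h) b5_per b5_up b5_up'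
    (by omega) hx hl hv hxv hc
  omega

/-- c4': at most two twins -/
theorem c4' (h : Cex G S 5 b5) : ∀ x ∈ S, dg G S x = 5 → (tws G S x).card ≤ 2 := by
  intro x hx hl
  have h1 := Pool.Agent.OW.c4' h.cr (card_gt h) (no_al h) hx hl
  omega

/-- a `5`-clique has at most two vertices of degree `5` -/
theorem low_two (h : Cex G S 5 b5) (hr : (S.card - 1) % 5 ≠ 4) {T : Finset V} (hT : T ⊆ S)
    (hq : Clq G T) (hk : T.card = 5) : (T.filter fun t => dg G S t = 5).card ≤ 2 := by
  have h1 := low_clq (n := 4) (by omega) h.cr (add_one h) (fun x hx hl v hv hxv hc => by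
    have := c4 h hr x hx hl v hv hxv hc
    omega) hT hq hk (by omega)
  omega

end Pool.Agent.OK5
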