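import Pool.Agent.Lib_helper51.OK5.Tab

/-!
# Costs of the steps for `K = 5`: reduction to finitely many cases
-/

set_option autoImplicit false
set_option linter.unusedSectionVars false
set_option linter.unusedVariables false
set_option maxRecDepth 100000

open Pool.Agent.OW


namespace Pool.Agent.OK5

theorem b5_add (q m : ℕ) : b5 (m + 5 * q) = b5 m + 2 * (q : ℤ) := by
  induction q with
  | zero => simp
  | succ n ih =>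
    have h : m + 5 * (n + 1) = (m + 5 * n) + 5 := by ring
    rw [h, b5_per, ih]
    push_cast
    ring

/-- the cost depends only on the residues -/
theorem cst_mod (s m a : ℕ) (h1 : 1 ≤ s) (h2 : 1 ≤ a) :
    cst 5 b5 s m a = cst 5 b5 s (m % 5) (a % 5 + 5) := by
  unfold cst
  have e1 : b5 (m + a) + 2 = b5 (m % 5 + (a % 5 + 5)) + 2 * ((m / 5 : ℕ) : ℤ) +
      2 * ((a / 5 : ℕ) : ℤ) := by
    rw [← b5_per, ← b5_add, ← b5_add]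
    congr 1
    omega
  have e2 : b5 m = b5 (m % 5) + 2 * ((m / 5 : ℕ) : ℤ) := by
    rw [← b5_add]
    congr 1
    omega
  have e3 : b5 (a + s - 1) + 2 = b5 (a % 5 + 5 + s - 1) + 2 * ((a / 5 : ℕ) : ℤ) := by
    rw [← b5_per, ← b5_add]
    congr 1
    omega
  linarith

/-- residue 2 -/
def t2 (m : ℕ) : ℤ := if m % 5 = 0 ∨ m % 5 = 1 then 4 else if m % 5 = 2 then 6 else 8

/-- residue 3 -/
def t3 (m : ℕ) : ℤ := if m % 5 = 0 then 4 else 6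

/-- residue 3, improved -/
def t3' (m : ℕ) : ℤ := if m % 5 = 0 then 4 else if m % 5 = 1 ∨ m % 5 = 2 then 6 else 8

theorem mod_add (m a : ℕ) : (m + a) % 5 = (m % 5 + (a % 5 + 5)) % 5 := by omega

theorem t2_mod (m a : ℕ) : t2 (m + a) = t2 (m % 5 + (a % 5 + 5)) := by
  unfold t2
  rw [mod_add]

theorem t3_mod (m a : ℕ) : t3 (m + a) = t3 (m % 5 + (a % 5 + 5)) := by
  unfold t3
  rw [mod_add]

theorem t3'_mod (m a : ℕ) : t3' (m + a) = t3' (m % 5 + (a % 5 + 5)) := by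
  unfold t3'
  rw [mod_add]

theorem t2_mod' (m : ℕ) : t2 m = t2 (m % 5) := by
  unfold t2
  rw [Nat.mod_mod]

theorem t3_mod' (m : ℕ) : t3 m = t3 (m % 5) := by
  unfold t3
  rw [Nat.mod_mod]

theorem t3'_mod' (m : ℕ) : t3' m = t3' (m % 5) := by
  unfold t3'
  rw [Nat.mod_mod]

theorem t2_fin : ∀ p < 5, ∀ c < 10, 5 ≤ c → ∀ s < 6, 1 ≤ s →
    t2 p ≤ t2 (p + c) + cst 5 b5 s p c := by decide

theorem t3_fin : ∀ p < 5, ∀ c < 10, 5 ≤ c → ∀ s < 6, 1 ≤ s →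
    t3 p ≤ t3 (p + c) + cst 5 b5 s p c := by decide

theorem t3'_fin : ∀ p < 5, ∀ c < 10, 5 ≤ c → ∀ s < 6, 1 ≤ s →
    t3' p ≤ t3' (p + c) + cst 5 b5 s p c := by decide

theorem t2_lfin : ∀ p < 5, ∀ c < 10, ∀ s < 6, (5 ≤ c ∧ 1 ≤ s ∧ (p + c) % 5 = 2) →
    t2 p ≤ 2 + cst 5 b5 s p c + (if s = 1 then 2 else 0) := by decide

theorem t3_lfin : ∀ p < 5, ∀ c < 10, ∀ s < 6, (5 ≤ c ∧ 1 ≤ s ∧ (p + c) % 5 = 3) →
    t3 p ≤ 2 + cst 5 b5 s p c + (if s = 1 then 2 else 0) := by decide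

theorem t2_step (m a s : ℕ) (h1 : 1 ≤ s) (h2 : s ≤ 5) (h3 : 1 ≤ a) :
    t2 m ≤ t2 (m + a) + cst 5 b5 s m a := by
  rw [cst_mod s m a h1 h3, t2_mod, t2_mod' m]
  exact t2_fin _ (Nat.mod_lt _ (by omega)) _ (by omega) (by omega) s (by omega) h1

theorem t3_step (m a s : ℕ) (h1 : 1 ≤ s) (h2 : s ≤ 5) (h3 : 1 ≤ a) :
    t3 m ≤ t3 (m + a) + cst 5 b5 s m a := by
  rw [cst_mod s m a h1 h3, t3_mod, t3_mod' m]
  exact t3_fin _ (Nat.mod_lt _ (by omega)) _ (by omega) (by omega) s (by omega) h1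

theorem t3'_step (m a s : ℕ) (h1 : 1 ≤ s) (h2 : s ≤ 5) (h3 : 1 ≤ a) :
    t3' m ≤ t3' (m + a) + cst 5 b5 s m a := by
  rw [cst_mod s m a h1 h3, t3'_mod, t3'_mod' m]
  exact t3'_fin _ (Nat.mod_lt _ (by omega)) _ (by omega) (by omega) s (by omega) h1

theorem t2_last (m a s : ℕ) (h1 : 1 ≤ s) (h2 : s ≤ 5) (h3 : 1 ≤ a) (hr : (m + a) % 5 = 2) :
    t2 m ≤ 2 + cst 5 b5 s m a + (if s = 1 then 2 else 0) := by
  rw [cst_mod s m a h1 h3, t2_mod' m]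
  exact t2_lfin _ (Nat.mod_lt _ (by omega)) _ (by omega) s (by omega) (by omega)

theorem t3_last (m a s : ℕ) (h1 : 1 ≤ s) (h2 : s ≤ 5) (h3 : 1 ≤ a) (hr : (m + a) % 5 = 3) :
    t3 m ≤ 2 + cst 5 b5 s m a + (if s = 1 then 2 else 0) := by
  rw [cst_mod s m a h1 h3, t3_mod' m]
  exact t3_lfin _ (Nat.mod_lt _ (by omega)) _ (by omega) s (by omega) (by omega)

theorem l24f : ∀ c < 10, ∀ s < 6, (5 ≤ c ∧ 1 ≤ s ∧ (4 + c) % 5 = 2) →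
    6 ≤ cst 5 b5 s 4 c ∧ (s = 1 ∨ s = 3 ∨ 8 ≤ cst 5 b5 s 4 c) := by decide

theorem s24f : ∀ c < 10, ∀ s < 6, (5 ≤ c ∧ 1 ≤ s) →
    8 < t2 (4 + c) + cst 5 b5 s 4 c := by decide

theorem l34f : ∀ c < 10, ∀ s < 6, (5 ≤ c ∧ 1 ≤ s ∧ (4 + c) % 5 = 3) →
    4 ≤ cst 5 b5 s 4 c ∧ (s < 3 ∨ 8 ≤ cst 5 b5 s 4 c) := by decide

theorem s34f : ∀ c < 10, ∀ s < 6, (5 ≤ c ∧ 1 ≤ s) →
    8 < t3' (4 + c) + cst 5 b5 s 4 c := by decide

theorem l33f : ∀ c < 10, ∀ s < 6, (5 ≤ c ∧ 1 ≤ s ∧ (3 + c) % 5 = 3) →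
    2 ≤ cst 5 b5 s 3 c ∧ (s < 2 ∨ 8 ≤ cst 5 b5 s 3 c) := by decide

theorem s33f : ∀ c < 10, ∀ s < 6, (5 ≤ c ∧ 1 ≤ s) →
    6 < t3 (3 + c) + cst 5 b5 s 3 c := by decide

/-- residue 2, from residue 4: the last step -/
theorem l24 (m a s : ℕ) (h1 : 1 ≤ s) (h2 : s ≤ 5) (h3 : 1 ≤ a) (hm : m % 5 = 4)
    (hr : (m + a) % 5 = 2) :
    6 ≤ cst 5 b5 s m a ∧ (s = 1 ∨ s = 3 ∨ 8 ≤ cst 5 b5 s m a) := by
  rw [cst_mod s m a h1 h3, hm]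
  exact l24f _ (by omega) s (by omega) (by omega)

/-- residue 2, from residue 4: the other steps -/
theorem s24 (m a s : ℕ) (h1 : 1 ≤ s) (h2 : s ≤ 5) (h3 : 1 ≤ a) (hm : m % 5 = 4) :
    8 < t2 (m + a) + cst 5 b5 s m a := by
  rw [cst_mod s m a h1 h3, t2_mod, hm]
  exact s24f _ (by omega) s (by omega) (by omega)

/-- residue 3, from residue 4: the last step -/
theorem l34 (m a s : ℕ) (h1 : 1 ≤ s) (h2 : s ≤ 5) (h3 : 1 ≤ a) (hm : m % 5 = 4)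
    (hr : (m + a) % 5 = 3) :
    4 ≤ cst 5 b5 s m a ∧ (s < 3 ∨ 8 ≤ cst 5 b5 s m a) := by
  rw [cst_mod s m a h1 h3, hm]
  exact l34f _ (by omega) s (by omega) (by omega)

/-- residue 3, from residue 4: the other steps -/
theorem s34 (m a s : ℕ) (h1 : 1 ≤ s) (h2 : s ≤ 5) (h3 : 1 ≤ a) (hm : m % 5 = 4) :
    8 < t3' (m + a) + cst 5 b5 s m a := by
  rw [cst_mod s m a h1 h3, t3'_mod, hm]
  exact s34f _ (by omega) s (by omega) (by omega)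

/-- residue 3, from residue 3: the last step -/
theorem l33 (m a s : ℕ) (h1 : 1 ≤ s) (h2 : s ≤ 5) (h3 : 1 ≤ a) (hm : m % 5 = 3)
    (hr : (m + a) % 5 = 3) :
    2 ≤ cst 5 b5 s m a ∧ (s < 2 ∨ 8 ≤ cst 5 b5 s m a) := by
  rw [cst_mod s m a h1 h3, hm]
  exact l33f _ (by omega) s (by omega) (by omega)

/-- residue 3, from residue 3: the other steps -/
theorem s33 (m a s : ℕ) (h1 : 1 ≤ s) (h2 : s ≤ 5) (h3 : 1 ≤ a) (hm : m % 5 = 3) :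
    6 < t3 (m + a) + cst 5 b5 s m a := by
  rw [cst_mod s m a h1 h3, t3_mod, hm]
  exact s33f _ (by omega) s (by omega) (by omega)

end Pool.Agent.OK5
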