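import Pool.Agent.Lib_helper51.OK5.Base
import Pool.Agent.Lib_helper51.OK5.Num

/-!
# Tables for the proper subsets in the residues 2 and 3
-/

set_option autoImplicit false
set_option linter.unusedSectionVars false
set_option linter.unusedVariables false

open scoped Classical
open Finset
open Pool.Agent.O2 (PC Cb CrOn pr ms dg nd addE)
open Pool.Agent.O3 (con hit Clq)
open Pool.Agent.OW28 (NoCE Add1)
open Pool.Agent.OW


namespace Pool.Agent.OK5

variable {V : Type} {G : SimpleGraph V} {S : Finset V}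

/-- a table which is closed under steps and correct in the last step -/
theorem table {T : ℕ → ℤ} (h : Cex G S 5 b5)
    (h1 : ∀ m a s : ℕ, 1 ≤ s → s ≤ 5 → 1 ≤ a → T m ≤ T (m + a) + cst 5 b5 s m a)
    (h2 : ∀ m a s : ℕ, 1 ≤ s → s ≤ 5 → 1 ≤ a → m + a = S.card - 1 →
      T m ≤ 2 + cst 5 b5 s m a + (if s = 1 then 2 else 0)) :
    ∀ R ⊆ S, R ≠ S → 6 ≤ R.card → T (R.card - 1) ≤ Yy G 5 b5 R := by
  intro R hR hne hc
  have h3 := chainT (T := fun m => T m - 1) (y := 2) (i := 1)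
    (stp_of_ae (by omega) h.cr h.ih (by omega) (ae_one h)) (Y_two h) ?_ ?_ R hR hne hc
  · linarith
  · intro m a s hs hs' ha _
    have := h1 m a s hs hs' ha
    linarith
  · intro m s hs hs' hm
    have := h2 m (S.card - 1 - m) s hs hs' (by omega) (by omega)
    push_cast
    linarith

theorem Y2 (h : Cex G S 5 b5) (hr : (S.card - 1) % 5 = 2) :
    ∀ R ⊆ S, R ≠ S → 6 ≤ R.card → t2 (R.card - 1) ≤ Yy G 5 b5 R :=
  table h t2_step fun m a s h1 h2 h3 h4 => t2_last m a s h1 h2 h3 (by rw [h4]; exact hr)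

theorem Y3 (h : Cex G S 5 b5) (hr : (S.card - 1) % 5 = 3) :
    ∀ R ⊆ S, R ≠ S → 6 ≤ R.card → t3 (R.card - 1) ≤ Yy G 5 b5 R :=
  table h t3_step fun m a s h1 h2 h3 h4 => t3_last m a s h1 h2 h3 (by rw [h4]; exact hr)

end Pool.Agent.OK5
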