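import Pool.Agent.Lib_helper25.OX.B4
import Pool.Agent.Lib_helper51.OK5.Core
import Pool.Agent.Lib_helper51.OK5.Yt

/-!
# (c1) for `K = 5` and the residues 2 and 3
-/

set_option autoImplicit false
set_option linter.unusedSectionVars false
set_option linter.unusedVariables false

open scoped Classical
open Finset
open Pool.Agent.O2 (PC Cb CrOn pr ms dg nd addE)
open Pool.Agent.O3 (con hit Clq Non)
open Pool.Agent.OW28 (NoCE Add1)
open Pool.Agent.OW
open Pool.Agent.OW.S5 (PS Tgt)
open Pool.Agent.OX25 (T6)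

namespace Pool.Agent.OK5

variable {V : Type} {G : SimpleGraph V} {S : Finset V}

/-- with loss at most one a `5`-clique in the last piece has many low vertices -/
theorem no_flex1 (h : Cex G S 5 b5) (hr : (S.card - 1) % 5 ≠ 4) {R A T : Finset V}
    {ψ : V → Fin 5} {Z : Finset (Fin 5)} (hst : Step G S R ψ A Z) (hU : R ∪ A = S)
    (hg : gain G R ψ A Z ≤ 1) (hT : T ⊆ A) (hTc : T.card = 5) (hq : Clq G T)
    (hd : (T.filter fun t => ¬ dg (con G R ψ) (A.disjSum Z) (Sum.inl t) = 5).card ≤ 1) :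
    False := by
  have hTS : T ⊆ S := hT.trans hst.subA
  have h1 := low_two h hr hTS hq hTc
  -- the loss
  have h2 : ((T.filter fun t => ¬ (hit G R ψ t ∩ Z).card = dg G R t).card : ℤ) ≤ 1 := by
    refine le_trans ?_ hg
    have h3 : ((T.filter fun t => ¬ (hit G R ψ t ∩ Z).card = dg G R t).card : ℤ) =
        ∑ t ∈ T.filter (fun t => ¬ (hit G R ψ t ∩ Z).card = dg G R t), (1 : ℤ) := by
      rw [sum_const, nsmul_eq_mul, mul_one]
    rw [h3]
    have h4 : ∑ t ∈ T.filter (fun t => ¬ (hit G R ψ t ∩ Z).card = dg G R t), (1 : ℤ) ≤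
        ∑ t ∈ T.filter (fun t => ¬ (hit G R ψ t ∩ Z).card = dg G R t),
          ((dg G R t : ℤ) - (hit G R ψ t ∩ Z).card) := by
      apply sum_le_sum
      intro t ht
      have h5 := (mem_filter.1 ht).2
      have h6 := gain_term G R ψ Z t
      have h7 : ((dg G R t : ℤ) - (hit G R ψ t ∩ Z).card) ≠ 0 := by
        intro h8
        apply h5
        have h9 : ((hit G R ψ t ∩ Z).card : ℤ) = dg G R t := by linarith
        exact_mod_cast h9
      omega
    refine h4.trans ?_
    unfold gain
    apply sum_le_sum_of_subset_of_nonneg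
    · exact (filter_subset _ _).trans hT
    · intro t _ _
      exact gain_term G R ψ Z t
  have h2' : (T.filter fun t => ¬ (hit G R ψ t ∩ Z).card = dg G R t).card ≤ 1 := by
    exact_mod_cast h2
  have h3 : T ⊆ (T.filter fun t => dg G S t = 5) ∪
      ((T.filter fun t => ¬ dg (con G R ψ) (A.disjSum Z) (Sum.inl t) = 5) ∪
        (T.filter fun t => ¬ (hit G R ψ t ∩ Z).card = dg G R t)) := by
    intro t ht
    by_cases h4 : dg (con G R ψ) (A.disjSum Z) (Sum.inl t) = 5
    · by_cases h5 : (hit G R ψ t ∩ Z).card = dg G R t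
      · refine mem_union_left _ (mem_filter.2 ⟨ht, ?_⟩)
        rw [dg_Q, h5] at h4
        rw [← hU, Pool.Agent.O2.dg_union hst.disj]
        omega
      · exact mem_union_right _ (mem_union_right _ (mem_filter.2 ⟨ht, h5⟩))
    · exact mem_union_right _ (mem_union_left _ (mem_filter.2 ⟨ht, h4⟩))
  have h4 := card_le_card h3
  have h5 := card_union_le (T.filter fun t => dg G S t = 5)
    ((T.filter fun t => ¬ dg (con G R ψ) (A.disjSum Z) (Sum.inl t) = 5) ∪
        (T.filter fun t => ¬ (hit G R ψ t ∩ Z).card = dg G R t))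
  have h6 := card_union_le
    (T.filter fun t => ¬ dg (con G R ψ) (A.disjSum Z) (Sum.inl t) = 5)
    (T.filter fun t => ¬ (hit G R ψ t ∩ Z).card = dg G R t)
  omega

/-- residue 3: proper subsets of residue 3 -/
theorem b3_eight (h : Cex G S 5 b5) (T : T6 5 b5) (hr : (S.card - 1) % 5 = 3) :
    ∀ R ⊆ S, R ≠ S → 6 ≤ R.card → (R.card - 1) % 5 = 3 → 8 ≤ Yy G 5 b5 R := by
  intro R hR hne hc hm
  by_contra hlt
  obtain ⟨t, ht⟩ := Pool.Agent.OX25.Yy_even G R
  have hY6 : Yy G 5 b5 R ≤ 6 := by omega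
  obtain ⟨ψ, A, Z, hst, hYe, hQ, hg0, hg1⟩ := Pool.Agent.OX25.good_step (β := b5) (by omega)
    h.cr h.ih (ae_one h) hR hne hc
  have hA1 : 1 ≤ A.card := card_pos.2 hst.neA
  have hcu := hst.card_union
  have e1 : (R ∪ A).card - 1 = R.card - 1 + A.card := by omega
  by_cases hU : R ∪ A = S
  · have hN : (R.card - 1 + A.card) % 5 = 3 := by rw [← e1, hU]; exact hr
    obtain ⟨h1, h2⟩ := l33 (R.card - 1) A.card Z.card hst.Z_pos hst.Z_le hA1 hm hN
    have hY2 := Y_two h
    rw [hU] at hYe
    have hs : Z.card = 1 := by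
      rcases h2 with h2 | h2
      · have := hst.Z_pos
        omega
      · exfalso
        linarith
    have hg := hg1 hU hs
    have hg' : gain G R ψ A Z ≤ 1 := by linarith
    have hQ0 : Yy (con G R ψ) 5 b5 (A.disjSum Z) = 0 := by linarith
    have hres : 5 ∣ (A.disjSum Z).card - 1 := by
      rw [hst.card_Q, hs]
      omega
    rcases Pool.Agent.OX25.flex_gen T h.ih (fun X h1 h2 h3 => by
        linarith [Y_four h X h1 h2 h3]) hst (card_pos.1 (by omega)) (hst.Q_lt hc) hres hQ0
      with h3 | ⟨Q, h3, h4, h5, h6⟩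
    · have h4 := Pool.Agent.OW.S5.clq_of_card hst.cr h3
      have hAc : A.card = 5 := by
        rw [hst.card_Q, hs] at h3
        omega
      refine no_flex1 h (by omega) hst hU hg' (Subset.refl A) hAc ?_ ?_
      · intro a ha b hb hab
        exact h4 (Sum.inl a) (inl_mem_disjSum.2 ha) (Sum.inl b) (inl_mem_disjSum.2 hb)
          (fun e => hab (Sum.inl_injective e))
      · have h5 : (A.filter fun t => ¬ dg (con G R ψ) (A.disjSum Z) (Sum.inl t) = 5) = ∅ := by
          rw [filter_eq_empty_iff]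
          intro t ht h6
          apply h6
          have h7 := Pool.Agent.OW.S5.dg_of_clq h4 (inl_mem_disjSum.2 ht)
          omega
        rw [h5]
        simp
    · exact no_flex1 h (by omega) hst hU hg' h3 h4 h5 h6
  · have h1 := s33 (R.card - 1) A.card Z.card hst.Z_pos hst.Z_le hA1 hm
    have h2 := Y3 h hr (R ∪ A) hst.sub_union hU (by omega)
    rw [e1] at h2
    linarith

/-- the improved table for residue 3 -/
theorem Y3' (h : Cex G S 5 b5) (T : T6 5 b5) (hr : (S.card - 1) % 5 = 3) :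
    ∀ R ⊆ S, R ≠ S → 6 ≤ R.card → t3' (R.card - 1) ≤ Yy G 5 b5 R := by
  intro R hR hne hc
  have h1 := Y3 h hr R hR hne hc
  have h3 := b3_eight h T hr R hR hne hc
  have h4 := Pool.Agent.OX25.b4_eight h T hr (fun X hX hXn hXc hXm => by
    have := Y3 h hr X hX hXn hXc
    unfold t3 at this
    rw [if_neg hXm] at this
    exact this) R hR hne hc
  unfold t3 at h1
  unfold t3'
  split_ifs at h1 ⊢ <;> first | linarith | skip
  by_cases h5 : (R.card - 1) % 5 = 3
  · exact h3 h5
  · exact h4 (by omega)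

/-- residue 2: at most three boundary colours -/
theorem col2 (h : Cex G S 5 b5) (hr : (S.card - 1) % 5 = 2) {R : Finset V} (hR : R ⊆ S)
    (hne : R ≠ S) (hc : 6 ≤ R.card) (hm : (R.card - 1) % 5 = 4) (hY : Yy G 5 b5 R ≤ 8)
    (ψ : V → Fin 5) (hψ : PC G R ψ) : ((bd G S R).image ψ).card ≤ 3 := by
  obtain ⟨A, Z, hst⟩ := step_exists (by omega) h.cr hR (card_pos.1 (by omega)) hψ
  have h1 := hst.Y_le h.ih hc
  have hA1 : 1 ≤ A.card := card_pos.2 hst.neA
  have hcu := hst.card_union
  have hg := hst.gain_nonneg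
  have e1 : (R ∪ A).card - 1 = R.card - 1 + A.card := by omega
  by_cases hU : R ∪ A = S
  · have hN : (R.card - 1 + A.card) % 5 = 2 := by rw [← e1, hU]; exact hr
    obtain ⟨h2, h3⟩ := l24 (R.card - 1) A.card Z.card hst.Z_pos hst.Z_le hA1 hm hN
    have hY2 := Y_two h
    rw [hU] at h1
    have h4 := bd_gain hst hU
    have hg0 : gain G R ψ A Z ≤ 0 := by linarith
    have hs : Z.card ≤ 3 := by
      rcases h3 with h3 | h3 | h3
      · omega
      · omega
      · exfalso; linarith
    have h5 : (Z.card : ℤ) ≤ 3 := by exact_mod_cast hs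
    have h6 : (((bd G S R).image ψ).card : ℤ) ≤ 3 := by linarith
    exact_mod_cast h6
  · exfalso
    have h2 := s24 (R.card - 1) A.card Z.card hst.Z_pos hst.Z_le hA1 hm
    have h3 := Y2 h hr (R ∪ A) hst.sub_union hU (by omega)
    rw [e1] at h3
    linarith

/-- residue 3: at most three boundary colours -/
theorem col3 (h : Cex G S 5 b5) (T : T6 5 b5) (hr : (S.card - 1) % 5 = 3) {R : Finset V}
    (hR : R ⊆ S) (hne : R ≠ S) (hc : 6 ≤ R.card) (hm : (R.card - 1) % 5 = 4)
    (hY : Yy G 5 b5 R ≤ 8) (ψ : V → Fin 5) (hψ : PC G R ψ) :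
    ((bd G S R).image ψ).card ≤ 3 := by
  obtain ⟨A, Z, hst⟩ := step_exists (by omega) h.cr hR (card_pos.1 (by omega)) hψ
  have h1 := hst.Y_le h.ih hc
  have hA1 : 1 ≤ A.card := card_pos.2 hst.neA
  have hcu := hst.card_union
  have hg := hst.gain_nonneg
  have e1 : (R ∪ A).card - 1 = R.card - 1 + A.card := by omega
  by_cases hU : R ∪ A = S
  · have hN : (R.card - 1 + A.card) % 5 = 3 := by rw [← e1, hU]; exact hr
    obtain ⟨h2, h3⟩ := l34 (R.card - 1) A.card Z.card hst.Z_pos hst.Z_le hA1 hm hN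
    have hY2 := Y_two h
    rw [hU] at h1
    have h4 := bd_gain hst hU
    have hg1 : gain G R ψ A Z ≤ 1 := by linarith
    have hs : Z.card ≤ 2 := by
      rcases h3 with h3 | h3
      · omega
      · exfalso; linarith
    have h5 : (Z.card : ℤ) ≤ 2 := by exact_mod_cast hs
    have h6 : (((bd G S R).image ψ).card : ℤ) ≤ 3 := by linarith
    exact_mod_cast h6
  · exfalso
    have h2 := s34 (R.card - 1) A.card Z.card hst.Z_pos hst.Z_le hA1 hm
    have h3 := Y3' h T hr (R ∪ A) hst.sub_union hU (by omega)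
    rw [e1] at h3
    linarith

/-- the emerald in a tight clone set -/
theorem emerald (h : Cex G S 5 b5) (T : T6 5 b5) {v x : V} {R : Finset V}
    (hR : R ⊆ S.erase v) (hv : v ∈ S) (hcr : CrOn (clo G S v x) (insert v R) 5)
    (hdf : df (clo G S v x) 5 (insert v R) = b5 R.card) (hm : (R.card - 1) % 5 = 4)
    (hc : 6 ≤ R.card) (hlt : R.card + 1 < S.card) :
    ∃ Q ⊆ R, Q.card = 5 ∧ Clq G Q ∧ ∀ t ∈ Q, dg (clo G S v x) (insert v R) t = 5 := by
  have hvR : v ∉ R := fun h' => (mem_erase.1 (hR h')).1 rfl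
  have hcard : (insert v R).card = R.card + 1 := card_insert_of_notMem hvR
  have hT : Tgt 5 b5 (clo G S v x) (insert v R) := by
    refine ⟨hcr, ?_, ?_⟩
    · rw [hcard]
      omega
    · unfold Yy
      rw [hdf, hcard, Nat.add_sub_cancel]
      ring
  have ih : IH 5 b5 ((insert v R).card + 1) := by
    intro V' G' S' h1 h2
    exact h.ih V' G' S' h1 (by omega)
  obtain ⟨Q, hQ, hQc, hQq, hQd⟩ := Pool.Agent.OX25.lemmaT6 T ih hT (mem_insert_self v R) (by
    intro R' hR' hY
    by_contra hvR'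
    have hsub : R' ⊆ R := by
      intro a ha
      rcases mem_insert.1 (hR'.sub ha) with h1 | h1
      · exact absurd (h1 ▸ ha) hvR'
      · exact h1
    have hd : 5 ∣ R'.card - 1 := by
      by_contra hd
      have h1 := (Pool.Agent.OX25.tgap6 T ih hT hR').2 hd
      push_cast at h1
      linarith
    have hc' := Pool.Agent.OX25.small_card hR' hd
    have hYe : Yy (clo G S v x) 5 b5 R' = Yy G 5 b5 R' := by
      unfold Yy df
      rw [clo_pr hvR']
    have h4 := Y_four h R' (hsub.trans (hR.trans (erase_subset _ _)))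
      (fun e => hvR' (e ▸ hv)) hc'
    rw [hYe] at hY
    linarith)
  have hQR : Q ⊆ R := by
    intro a ha
    obtain ⟨h1, h2⟩ := mem_erase.1 (hQ ha)
    exact (mem_insert.1 h2).resolve_left h1
  refine ⟨Q, hQR, hQc, ?_, hQd⟩
  intro a ha b hb hab
  have hav : a ≠ v := fun e => hvR (e ▸ hQR ha)
  have hbv : b ≠ v := fun e => hvR (e ▸ hQR hb)
  exact (clo_adj hav hbv).1 (hQq a ha b hb hab)

theorem up2 (m : ℕ) (h : t2 m ≤ b5 (m + 1) + 4 - b5 m) : m % 5 = 4 := by
  unfold t2 b5 at h
  split_ifs at h <;> omega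

theorem up3 (m : ℕ) (h : t3' m ≤ b5 (m + 1) + 4 - b5 m) : m % 5 = 4 := by
  unfold t3' b5 at h
  split_ifs at h <;> omega

theorem up4 (m : ℕ) (h : m % 5 = 4) : b5 (m + 1) = b5 m + 4 := by
  unfold b5
  split_ifs <;> omega

/-- (c1) for `K = 5` in the residues 2 and 3 -/
theorem c1_5 (T : T6 5 b5) (h : Cex G S 5 b5)
    (hr : (S.card - 1) % 5 = 2 ∨ (S.card - 1) % 5 = 3) :
    ∀ x ∈ S, dg G S x = 5 → ∀ v ∈ S, G.Adj x v → ¬ Tw G S x v →
      dg G S v ≤ 5 + (tws G S x).card →
      (dg G S v = 5 → (tws G S v).card ≤ (tws G S x).card) → Clq G (cn G S v x) := by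
  intro x hx hlow v hv hxv htw hd hord
  have hxt : x ∉ tws G S x := by
    intro h1
    unfold tws at h1
    exact (mem_filter.1 h1).2.1 rfl
  have hcard : (insert x (tws G S x)).card = (tws G S x).card + 1 := card_insert_of_notMem hxt
  have hcs := clone_set (C := insert x (tws G S x)) h (by omega) ?_ (mem_insert_self _ _) hlow
    ?_ hv ?_ hxv ?_ ?_
  · rcases hcs with h1 | ⟨R, h1, h2, h3, h4, h5, h6, h7⟩
    · exact h1
    · have hRS : R ⊆ S := h1.trans (erase_subset _ _)
      have hne : R ≠ S := by rintro rfl; omega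
      have h8 : Yy G 5 b5 R ≤ b5 (R.card - 1 + 1) + 4 - b5 (R.card - 1) := by
        have e : R.card - 1 + 1 = R.card := by omega
        unfold Yy
        rw [e]
        push_cast at h7
        linarith
      have hmY : (R.card - 1) % 5 = 4 ∧ 8 ≤ Yy G 5 b5 R := by
        rcases hr with hr | hr
        · have h9 := Y2 h hr R hRS hne h3
          have h10 := up2 _ (h9.trans h8)
          refine ⟨h10, ?_⟩
          unfold t2 at h9
          rw [if_neg (by omega), if_neg (by omega)] at h9
          exact h9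
        · have h9 := Y3' h T hr R hRS hne h3
          have h10 := up3 _ (h9.trans h8)
          refine ⟨h10, ?_⟩
          unfold t3' at h9
          rw [if_neg (by omega), if_neg (by omega)] at h9
          exact h9
      obtain ⟨hm, hY8⟩ := hmY
      have h9 := up4 _ hm
      have e : R.card - 1 + 1 = R.card := by omega
      have hYle : Yy G 5 b5 R ≤ 8 := by linarith
      have hdfR : df G 5 R = b5 R.card + 4 := by
        unfold Yy at hY8 hYle
        rw [e] at h9
        linarith
      obtain ⟨Q, hQR, hQc, hQq, hQd⟩ := emerald h T h1 hv h5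
        (by rw [h6, hdfR]; push_cast; ring) hm h3 h4
      refine core h (by omega) hx hlow hv hxv h1 h2 hQR hQc hQq hQd ?_
      rcases hr with hr | hr
      · exact col2 h hr hRS hne h3 hm hYle
      · exact col3 h T hr hRS hne h3 hm hYle
  · intro c hc
    rcases mem_insert.1 hc with rfl | hc
    · exact hx
    · exact (mem_filter.1 hc).1
  · intro c hc hne
    rcases mem_insert.1 hc with rfl | hc
    · exact absurd rfl hne
    · exact (mem_filter.1 hc).2.2
  · intro hc
    rcases mem_insert.1 hc with rfl | hc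
    · exact hxv.ne rfl
    · exact htw (mem_filter.1 hc).2.2
  · omega
  · intro hd'
    have := hord hd'
    omega

end Pool.Agent.OK5
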