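import Pool.Agent.Lib_helper92.OW.Defs
import Pool.Agent.Lib_helper53.OW.Ext2

/-!
# The table of residues for `K = 5`
-/

set_option autoImplicit false
set_option linter.unusedSectionVars false
set_option linter.unusedVariables false

open Pool.Agent.OW

namespace Pool.Agent.OK5

/-- the bound for `K = 5`: `m = n - 1` -/
def b5 (m : ℕ) : ℤ :=
  2 * ((m / 5 : ℕ) : ℤ) + (if m % 5 = 0 then 4 else if m % 5 = 1 ∨ m % 5 = 4 then 2 else 0)

theorem b5_F1 (m t s : ℕ) (h1 : 1 ≤ s) (h2 : s ≤ 5) (h3 : s ≤ t) :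
    b5 m + b5 t + 2 ≤ b5 (m + t + 1 - s) + (s : ℤ) * (((5 : ℕ) : ℤ) + 2 - s) := by
  unfold b5
  interval_cases s <;> push_cast <;> split_ifs <;> omega

theorem b5_per (m : ℕ) : b5 (m + 5) = b5 m + 2 := by
  unfold b5
  have h1 : (m + 5) % 5 = m % 5 := by omega
  have h2 : (m + 5) / 5 = m / 5 + 1 := by omega
  rw [h1, h2]
  push_cast
  ring

theorem b5_up (m : ℕ) : b5 (m + 1) ≤ b5 m + ((5 : ℕ) : ℤ) - 1 := by
  unfold b5
  push_cast
  split_ifs <;> omega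

theorem b5_up' (m : ℕ) (h : (m + 1) % 5 ≠ 0) : b5 (m + 1) ≤ b5 m + ((5 : ℕ) : ℤ) - 2 := by
  unfold b5
  push_cast
  split_ifs <;> omega

theorem b5_five : b5 5 = 6 := by decide

theorem b5_pos (m : ℕ) (hm : 5 ≤ m) : 1 ≤ b5 m := by
  unfold b5
  split_ifs <;> omega

theorem b5_F0 (m : ℕ) : (2 : ℤ) ∣ (((5 : ℕ) : ℤ) + 1) * (m + 1) - b5 m := by
  unfold b5
  split_ifs
  · exact ⟨3 * (m + 1) - (m / 5 : ℕ) - 2, by push_cast; ring⟩
  · exact ⟨3 * (m + 1) - (m / 5 : ℕ) - 1, by push_cast; ring⟩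
  · exact ⟨3 * (m + 1) - (m / 5 : ℕ), by push_cast; ring⟩

end Pool.Agent.OK5
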